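import Pool.Agent.MP_6a4325_al.H84.Spec3
import Pool.Agent.MP_6a4325_al.H40.Pl2

/-!
Row CHI: separating characters, and torsion free abelian normal subgroups.
-/

set_option autoImplicit false

namespace Pool.Agent.MP_6a4325_al.H57

open Pool.Agent.MP_6a4325_al.H62 Pool.Agent.MP_6a4325_al.H84

theorem bound {α : Type} (C : Finset α) (f : α → ℤ) : ∃ M : ℕ, ∀ x ∈ C, |f x| < M := by
  refine ⟨C.sup (fun x => (f x).natAbs) + 1, fun x hx => ?_⟩
  have h : (f x).natAbs ≤ C.sup fun x => (f x).natAbs :=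
    Finset.le_sup (f := fun x => (f x).natAbs) hx
  rw [Int.abs_eq_natAbs]
  omega

theorem exists_dual {V : Type} [AddCommGroup V] [Module.Free ℤ V] (C : Finset V)
    (h : ∀ c ∈ C, c ≠ 0) : ∃ f : V →ₗ[ℤ] ℤ, ∀ c ∈ C, f c ≠ 0 := by
  classical
  induction C using Finset.induction_on with
  | empty => exact ⟨0, by simp⟩
  | insert c C _ ih =>
    obtain ⟨f, hf⟩ := ih fun x hx => h x (Finset.mem_insert_of_mem hx)
    by_cases h0 : f c = 0
    · obtain ⟨g, hg⟩ := Module.Projective.exists_dual_ne_zero ℤ (h c (Finset.mem_insert_self _ _))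
      obtain ⟨M, hM⟩ := bound C g
      refine ⟨(M : ℤ) • f + g, fun x hx => ?_⟩
      rw [LinearMap.add_apply, LinearMap.smul_apply, smul_eq_mul]
      rcases Finset.mem_insert.1 hx with rfl | hx
      · rwa [h0, mul_zero, zero_add]
      · intro e
        have h1 : g x = 0 := Int.eq_zero_of_abs_lt_dvd ⟨-f x, by linear_combination e⟩ (hM x hx)
        have h2 := hM x hx
        rw [h1, add_zero, mul_eq_zero] at e
        rw [h1, abs_zero] at h2
        exact e.elim h2.ne' (hf x hx)
    · exact ⟨f, fun x hx => (Finset.mem_insert.1 hx).elim (fun e => e ▸ h0) (hf x)⟩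

theorem chi : SChi := by
  intro p _ G _ A hA hc ht C hC
  classical
  let := hc.commGroup
  have hfg : Group.FG A := (Group.fg_iff_subgroup_fg A).2 hA
  have : IsMulTorsionFree A := IsMulTorsionFree.of_not_isOfFinOrder fun a ha hf =>
    ha (Subtype.ext (ht a a.2 (A.subtype.isOfFinOrder hf)))
  have : Module.Finite ℤ (Additive A) := Module.Finite.iff_addGroup_fg.2 inferInstance
  let i : C → Additive A := fun c => Additive.ofMul ⟨c, (hC c c.2).1⟩
  obtain ⟨f, hf⟩ := exists_dual (Finset.univ.image i) fun c hc' => by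
    obtain ⟨x, -, rfl⟩ := Finset.mem_image.1 hc'
    exact fun e => (hC x x.2).2 (congrArg (fun y : Additive A => ((Additive.toMul y : A) : G)) e)
  obtain ⟨M, hM⟩ := bound (Finset.univ.image i) f
  have hp : p.Prime := Fact.out
  have : NeZero ((p * M + 1 : ℕ) : Kp p) := ⟨by simp⟩
  obtain ⟨ζ, hζ⟩ := HasEnoughRootsOfUnity.exists_primitiveRoot (Kp p) (p * M + 1)
  have h0 : ζ ≠ 0 := hζ.ne_zero (by omega)
  obtain ⟨ψ, h1, h2⟩ := exists_isCh (K := Kp p) (B := A)
    { toFun := fun a => Units.mk0 ζ h0 ^ f (Additive.ofMul a)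
      map_one' := by simp
      map_mul' := fun a b => by rw [ofMul_mul, map_add, zpow_add] }
  refine ⟨ψ, h1, fun c hc' e => ?_⟩
  have hm : i ⟨c, hc'⟩ ∈ Finset.univ.image i := Finset.mem_image_of_mem _ (Finset.mem_univ _)
  have h3 : ζ ^ f (i ⟨c, hc'⟩) = 1 := by
    have := (h2 ⟨c, (hC c hc').1⟩).symm.trans e
    simpa using this
  refine hf _ hm (Int.eq_zero_of_abs_lt_dvd ((hζ.zpow_eq_one_iff_dvd _).1 h3) ?_)
  have h4 := hM _ hm
  have h5 : M ≤ p * M := Nat.le_mul_of_pos_left M hp.pos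
  omega

theorem pln : SPln := by
  intro L _ hL hi
  classical
  obtain ⟨hfg, N₀, hN₀, hs₀⟩ := hL
  let N := N₀.normalCore
  have hs : Group.IsSolvable N :=
    Group.isSolvable_of_isSolvable_injective (Subgroup.inclusion_injective N₀.normalCore_le)
  let D : ℕ → Subgroup L := fun d => (derivedSeries N d).map N.subtype
  have hex : ∃ n, Finite (D n) := by
    obtain ⟨n, hn⟩ := hs.solvable
    exact ⟨n, by simp only [D]; rw [hn, Subgroup.map_bot]; infer_instance⟩
  obtain ⟨d, hd⟩ : ∃ d, Nat.find hex = d + 1 := by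
    refine Nat.exists_eq_succ_of_ne_zero fun e => ?_
    have h0 := Nat.find_spec hex
    simp only [D] at h0
    rw [e, derivedSeries_zero, ← MonoidHom.range_eq_map, Subgroup.range_subtype] at h0
    have := (Subgroup.finite_iff_finite_and_finiteIndex N).2 ⟨h0, inferInstance⟩
    exact not_finite L
  have hF : Finite (D (d + 1)) := hd ▸ Nat.find_spec hex
  have hD : Infinite (D d) := not_finite_iff_infinite.1 (Nat.find_min hex (by omega))
  have hn : (D d).Normal := inferInstanceAs ((derivedSeries N d).map N.subtype).Normal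
  have hZ := H40.inf_center (D d) (D (d + 1)) (hfg _) (by
    rintro _ ⟨x, hx, rfl⟩ _ ⟨y, hy, rfl⟩
    refine ⟨x * y * x⁻¹ * y⁻¹, ?_, rfl⟩
    rw [derivedSeries_succ]
    exact Subgroup.commutator_mem_commutator hx hy)
  have hc : Cm (D d ⊓ Subgroup.centralizer (D d : Set L))
      (D d ⊓ Subgroup.centralizer (D d : Set L)) := fun a ha b hb => hb.2 a ha.1
  obtain ⟨m, h1, h2⟩ := H40.ex_pw hc (hfg _)
  exact ⟨hc.pw m, hc.pw_normal m, h1, fun a ha b hb => hc a (hc.pw_le m ha) b (hc.pw_le m hb), h2⟩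

end Pool.Agent.MP_6a4325_al.H57
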